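import Pool.Agent.helper55.CVL.BLL

/-!
# Block CVL, row BLU: Green functions, upper bound (helper88)
-/

set_option autoImplicit false

open Complex Metric Set Filter Topology MeasureTheory
open HY (UD T S hd UN RM)
open RT (UC TD rm lf cr pd bl gr hdf Lf UP)

noncomputable section

namespace CVL

theorem BLU_ro (n : ℕ) : 0 ≤ RT.ro n ∧ RT.ro n < 1 := by
  unfold RT.ro
  have h1 : (1 : ℝ) ≤ 3 ^ n := one_le_pow₀ (by norm_num)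
  constructor
  · exact div_nonneg (by linarith) (by linarith)
  · rw [div_lt_one (by linarith)]
    linarith

theorem BLU_T {ι : Type} {l : Filter ι} {f g : ι → ℂ} {a b : ℂ} (ha : a ∈ UD) (hb : b ∈ UD)
    (hf : Tendsto f l (𝓝 a)) (hg : Tendsto g l (𝓝 b)) : Tendsto (fun i => T (f i) (g i)) l (𝓝 (T a b)) := by
  unfold HY.T
  refine Tendsto.div (hg.sub hf) ?_ (BLL_den ha hb)
  exact tendsto_const_nhds.sub (((Complex.continuous_conj.tendsto a).comp hf).mul hg)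

/-- a point at pseudo distance `≤ ρ` from a point of norm `≤ t` -/
theorem BLU_cpt (hMOB : HY.MOB_stmt) {ρ t : ℝ} (hρ0 : 0 ≤ ρ) (hρ : ρ < 1) (ht0 : 0 ≤ t) (ht : t < 1) {a b : ℂ} (ha : a ∈ UD) (hb : b ∈ UD)
    (hab : ‖T a b‖ ≤ ρ) (hbt : ‖b‖ ≤ t) : ‖a‖ ≤ Real.sqrt (1 - (1 - ρ ^ 2) * (1 - t) ^ 2) := by
  have h1 := (hMOB a ha).2.2.2.2.2.2.2.1 b hb
  have ha1 := BLL_mem ha
  have hb1 := BLL_mem hb
  have hd : 0 < ‖1 - (starRingEnd ℂ) a * b‖ := norm_pos_iff.2 (BLL_den ha hb)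
  have hd1 : 1 - t ≤ ‖1 - (starRingEnd ℂ) a * b‖ := by
    have h2 : 1 - ‖(starRingEnd ℂ) a * b‖ ≤ ‖1 - (starRingEnd ℂ) a * b‖ := by
      have := norm_sub_norm_le (1 : ℂ) ((starRingEnd ℂ) a * b)
      rwa [norm_one] at this
    have h3 : ‖(starRingEnd ℂ) a * b‖ ≤ t := by
      rw [norm_mul, RCLike.norm_conj]
      nlinarith [norm_nonneg a, norm_nonneg b]
    linarith
  rw [eq_div_iff (by positivity)] at h1
  have h4 : (1 - ρ ^ 2) ≤ 1 - ‖T a b‖ ^ 2 := by nlinarith [norm_nonneg (T a b)]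
  have h5 : (1 - t) ^ 2 ≤ ‖1 - (starRingEnd ℂ) a * b‖ ^ 2 := by nlinarith
  have h6 : 0 ≤ 1 - ρ ^ 2 := by nlinarith
  have h7 : (1 - ρ ^ 2) * (1 - t) ^ 2 ≤ (1 - ‖T a b‖ ^ 2) * ‖1 - (starRingEnd ℂ) a * b‖ ^ 2 :=
    mul_le_mul h4 h5 (sq_nonneg _) (h6.trans h4)
  have h8 : (1 - ‖a‖ ^ 2) * (1 - ‖b‖ ^ 2) ≤ 1 - ‖a‖ ^ 2 := by
    have : 0 ≤ 1 - ‖a‖ ^ 2 := by nlinarith [norm_nonneg a]
    nlinarith [norm_nonneg b, sq_nonneg ‖b‖]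
  apply Real.le_sqrt_of_sq_le
  linarith

theorem BLU_one {ρ t : ℝ} (hρ0 : 0 ≤ ρ) (hρ : ρ < 1) (ht : t < 1) : Real.sqrt (1 - (1 - ρ ^ 2) * (1 - t) ^ 2) < 1 := by
  rw [Real.sqrt_lt' one_pos]
  have h6 : 0 < 1 - ρ ^ 2 := by nlinarith
  have h7 : 0 < (1 - t) ^ 2 := by
    have : 0 < 1 - t := by linarith
    positivity
  have := mul_pos h6 h7
  linarith

/-- the key step: limits of finite sets of lifts -/
theorem BLU_key (hFRB : FRB_stmt) (hQNU : RT.QNU_stmt) (hQLC : RT.QLC_stmt) (hACR : RT.ACR_stmt) (hMOB : HY.MOB_stmt) (hTUL : V3.TUL_stmt)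
    {s : ℝ} {U : Ultrafilter ℕ} {W : ℕ → Set ℂ} {x : ℕ → ℂ} {χ : ℂ → ℂ} (hF : FRT s U W x χ) {ζ ζ' : ℕ → ℂ} {ζ₀' : ℂ} (hζ' : Tendsto ζ' U (𝓝 ζ₀'))
    {u₀ : ℂ} (hu₀ : u₀ ∈ UD) (hne : χ u₀ ≠ ζ₀') {μ : ℕ → ℂ} (hμ : Tendsto μ U (𝓝 u₀)) (hμe : ∀ᶠ j in (U : Filter ℕ), μ j ∈ UD ∧ CN (W j) (x j) (μ j) = ζ j)
    (hζW : ∀ᶠ j in (U : Filter ℕ), PT (W j) (x j) (ζ' j) ∈ W j)
    {ρ : ℝ} (hρ0 : 0 ≤ ρ) (hρ : ρ < 1) {t : ℝ} (ht0 : 0 ≤ t) (ht : t < 1) (hμt : ∀ᶠ j in (U : Filter ℕ), ‖μ j‖ ≤ t)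
    (E : ℕ → Finset ℂ) (m : ℕ) (hE : ∀ᶠ j in (U : Filter ℕ), (E j).card = m ∧ ∀ y ∈ E j, y ∈ lf (W j) (PT (W j) (x j) (ζ j)) (PT (W j) (x j) (ζ' j)) ∧ ‖y‖ ≤ ρ) :
    ∃ v : Fin m → ℂ, Function.Injective v ∧ (∀ i, v i ∈ UD ∧ χ (v i) = ζ₀' ∧ ‖v i‖ ≤ Real.sqrt (1 - (1 - ρ ^ 2) * (1 - t) ^ 2)) ∧
      Tendsto (fun j => ∑ y ∈ E j, Real.log (1 / ‖y‖)) U (𝓝 (∑ i, Real.log (1 / ‖T (v i) u₀‖))) := by
  have h1 : ∀ᶠ j in (U : Filter ℕ), ∃ g : Fin m → ℂ, (∀ i, g i ∈ UD ∧ CN (W j) (x j) (g i) = ζ' j ∧ ‖T (g i) (μ j)‖ ≤ ρ) ∧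
      (∀ i k, i ≠ k → s ≤ ‖T (g i) (g k)‖) ∧ ∑ y ∈ E j, Real.log (1 / ‖y‖) = ∑ i, Real.log (1 / ‖T (g i) (μ j)‖) := by
    filter_upwards [hF.td, hμe, hζW, hE] with j ⟨hTj, hxj⟩ ⟨hμU, hμζ⟩ hbW ⟨hc, hEj⟩
    obtain ⟨hUC, hcr, _⟩ := hQNU s (W j) hTj (x j) hxj
    have hcr0 : ((cr (W j) (x j) : ℝ) : ℂ) ≠ 0 := by exact_mod_cast hcr.ne'
    have hPT : ∀ u : ℂ, PT (W j) (x j) (CN (W j) (x j) u) = rm (W j) (x j) u := by
      intro u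
      unfold PT CN
      rw [mul_div_cancel₀ _ hcr0]
      ring
    have ha : rm (W j) (x j) (μ j) = PT (W j) (x j) (ζ j) := by rw [← hPT, hμζ]
    have hQj := hQLC s (W j) hTj (x j) hxj (PT (W j) (x j) (ζ' j)) hbW (μ j) hμU
    rw [ha] at hQj
    obtain ⟨e, he⟩ := hQj
    set q := (E j).equivFinOfCardEq hc with hq
    set g : Fin m → ℂ := fun i => ((e.symm ⟨((q.symm i : E j) : ℂ), (hEj _ (q.symm i).2).1⟩ : lf (W j) (x j) (PT (W j) (x j) (ζ' j))) : ℂ) with hg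
    have hgT : ∀ i, ‖T (g i) (μ j)‖ = ‖((q.symm i : E j) : ℂ)‖ := by
      intro i
      have := he (e.symm ⟨((q.symm i : E j) : ℂ), (hEj _ (q.symm i).2).1⟩)
      rw [Equiv.apply_symm_apply] at this
      exact this.symm
    have hglf : ∀ i, g i ∈ lf (W j) (x j) (PT (W j) (x j) (ζ' j)) := fun i => (e.symm ⟨((q.symm i : E j) : ℂ), (hEj _ (q.symm i).2).1⟩).2
    have hginj : Function.Injective g := by
      intro i i' hii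
      have h2 := e.symm.injective (Subtype.ext hii)
      have h3 := congrArg Subtype.val h2
      exact q.symm.injective (Subtype.ext h3)
    refine ⟨g, fun i => ⟨(hglf i).1, ?_, ?_⟩, ?_, ?_⟩
    · have h2 := (hglf i).2
      have h3 := hPT (g i)
      rw [h2] at h3
      unfold PT at h3
      exact mul_left_cancel₀ hcr0 (add_left_cancel h3)
    · rw [hgT i]
      exact (hEj _ (q.symm i).2).2
    · intro i k hik
      exact (hACR s (W j) hTj (x j) hxj).2.2.2.2.2.2.2.1 _ (g i) (g k) (hglf i) (hglf k) (fun h => hik (hginj h))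
    · have h2 : ∑ y ∈ E j, Real.log (1 / ‖y‖) = ∑ y : E j, Real.log (1 / ‖(y : ℂ)‖) := by
        rw [← Finset.sum_coe_sort (E j) (fun y => Real.log (1 / ‖y‖))]
      rw [h2, ← Equiv.sum_comp q.symm]
      exact Finset.sum_congr rfl fun i _ => by rw [hgT i]
  obtain ⟨g, hg⟩ := h1.choice
  have hχ := hFRB s U W x χ hF
  have h2 : ∀ i, ∃ v : ℂ, ‖v‖ ≤ Real.sqrt (1 - (1 - ρ ^ 2) * (1 - t) ^ 2) ∧ Tendsto (fun j => g j i) U (𝓝 v) := by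
    intro i
    refine hTUL U (fun j => g j i) _ ?_
    filter_upwards [hg, hμt, hμe] with j hgj hμj hμj2
    exact BLU_cpt hMOB hρ0 hρ ht0 ht (hgj.1 i).1 hμj2.1 (hgj.1 i).2.2 hμj
  choose v hvn hvt using h2
  have hv1 : ∀ i, v i ∈ UD := fun i => BLL_mem' (lt_of_le_of_lt (hvn i) (BLU_one hρ0 hρ ht))
  have hvχ : ∀ i, χ (v i) = ζ₀' := by
    intro i
    have hUDo : IsOpen UD := isOpen_ball
    have h3 : Tendsto (fun j => CN (W j) (x j) (g j i)) U (𝓝 (χ (v i))) := by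
      refine hF.cv.tendsto_comp (hχ.1.continuousOn (v i) (hv1 i)) (hv1 i) ?_
      rw [nhdsWithin_eq_nhds.2 (hUDo.mem_nhds (hv1 i))]
      exact hvt i
    have h4 : Tendsto (fun j => CN (W j) (x j) (g j i)) U (𝓝 ζ₀') := by
      refine hζ'.congr' ?_
      filter_upwards [hg] with j hgj
      exact (hgj.1 i).2.1.symm
    exact tendsto_nhds_unique h3 h4
  refine ⟨v, ?_, fun i => ⟨hv1 i, hvχ i, hvn i⟩, ?_⟩
  · intro i k hik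
    by_contra hne'
    have h3 : Tendsto (fun j => ‖T (g j i) (g j k)‖) U (𝓝 ‖T (v i) (v k)‖) := (BLU_T (hv1 i) (hv1 k) (hvt i) (hvt k)).norm
    have h4 : T (v i) (v k) = 0 := by
      unfold HY.T
      rw [hik, sub_self, zero_div]
    rw [h4, norm_zero] at h3
    have h5 : ∀ᶠ j in (U : Filter ℕ), s ≤ ‖T (g j i) (g j k)‖ := hg.mono fun j hgj => hgj.2.1 i k hne'
    have h6 := ge_of_tendsto h3 h5
    exact absurd hF.s0 (not_lt.2 h6)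
  · have h3 : Tendsto (fun j => ∑ i, Real.log (1 / ‖T (g j i) (μ j)‖)) U (𝓝 (∑ i, Real.log (1 / ‖T (v i) u₀‖))) := by
      refine tendsto_finsetSum _ fun i _ => BLL_lim (hv1 i) hu₀ ?_ (hvt i) hμ
      intro h
      apply hne
      rw [← h, hvχ i]
    refine h3.congr' ?_
    filter_upwards [hg] with j hgj
    exact hgj.2.2.symm

theorem BLU (hFRB : FRB_stmt) (hLMP : LMP_stmt) (hTDL : TDL_stmt) (hQNU : RT.QNU_stmt) (hQLC : RT.QLC_stmt) (hQFN : RT.QFN_stmt)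
    (hACR : RT.ACR_stmt) (hATA : RT.ATA_stmt) (hMOB : HY.MOB_stmt) (hTUL : V3.TUL_stmt) : BLU_stmt := by
  intro s U W x χ hF ζ ζ' ζ₀ hζ₀ ζ₀' hζ₀' hne hζ hζ' ε hε
  obtain ⟨hTD, _, v₀, hv, hrm⟩ := hTDL s U W x χ hF
  have h0Ω : (0 : ℂ) ∈ χ '' UD := (hFRB s U W x χ hF).2.2.2.2.2.2.2.2.1
  have hv0 : v₀ ≠ 0 := by
    intro h
    rw [h, norm_zero] at hv
    exact one_ne_zero hv.symm
  have hvi : ‖v₀⁻¹‖ = 1 := by rw [norm_inv, hv, inv_one]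
  obtain ⟨u₀, hu₀, hu₀e⟩ := id hζ₀
  obtain ⟨u₁, hu₁, hu₁e⟩ := id hζ₀'
  -- the constants
  obtain ⟨C, η, hC, hη, hη1, hA⟩ := hATA s hF.s0
  obtain ⟨n, hn⟩ : ∃ n : ℕ, C * (1 - η) ^ n ≤ ε / 4 := by
    have h1 : Tendsto (fun n : ℕ => C * (1 - η) ^ n) atTop (𝓝 (C * 0)) :=
      (tendsto_pow_atTop_nhds_zero_of_lt_one (by linarith) (by linarith)).const_mul C
    rw [mul_zero] at h1
    obtain ⟨n, hn⟩ := (h1.eventually_lt_const (show (0 : ℝ) < ε / 4 by linarith)).exists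
    exact ⟨n, hn.le⟩
  set ρ : ℝ := RT.ro (n + 1) with hρdef
  obtain ⟨hρ0, hρ⟩ := BLU_ro (n + 1)
  -- lifts of the moving points
  obtain ⟨μ, hμ, hμe⟩ := hLMP s U W x χ hF u₀ hu₀ ζ (by rw [hu₀e]; exact hζ)
  obtain ⟨ν, _, hνe⟩ := hLMP s U W x χ hF u₁ hu₁ ζ' (by rw [hu₁e]; exact hζ')
  set t : ℝ := (1 + ‖u₀‖) / 2 with htdef
  have hu₀1 := BLL_mem hu₀
  have ht0 : 0 ≤ t := by rw [htdef]; have := norm_nonneg u₀; linarith
  have ht1 : t < 1 := by rw [htdef]; linarith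
  have hμt : ∀ᶠ j in (U : Filter ℕ), ‖μ j‖ ≤ t := by
    have h1 : Tendsto (fun j => ‖μ j‖) U (𝓝 ‖u₀‖) := hμ.norm
    have h2 : ‖u₀‖ < t := by rw [htdef]; linarith
    exact (h1.eventually_lt_const h2).mono fun j hj => le_of_lt hj
  have hcr0 : ∀ᶠ j in (U : Filter ℕ), ((cr (W j) (x j) : ℝ) : ℂ) ≠ 0 ∧ UC (W j) (x j) (rm (W j) (x j)) := by
    filter_upwards [hF.td] with j ⟨hTj, hxj⟩
    obtain ⟨hUC, hcr, _⟩ := hQNU s (W j) hTj (x j) hxj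
    exact ⟨by exact_mod_cast hcr.ne', hUC⟩
  have hPTj : ∀ᶠ j in (U : Filter ℕ), ∀ u : ℂ, PT (W j) (x j) (CN (W j) (x j) u) = rm (W j) (x j) u := by
    filter_upwards [hcr0] with j hj u
    unfold PT CN
    rw [mul_div_cancel₀ _ hj.1]
    ring
  have haW : ∀ᶠ j in (U : Filter ℕ), PT (W j) (x j) (ζ j) ∈ W j := by
    filter_upwards [hPTj, hμe, hcr0] with j h1 h2 h3
    have := h1 (μ j)
    rw [h2.2] at this
    rw [this]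
    exact h3.2.map h2.1
  have hbW : ∀ᶠ j in (U : Filter ℕ), PT (W j) (x j) (ζ' j) ∈ W j := by
    filter_upwards [hPTj, hνe, hcr0] with j h1 h2 h3
    have := h1 (ν j)
    rw [h2.2] at this
    rw [this]
    exact h3.2.map h2.1
  have hab : ∀ᶠ j in (U : Filter ℕ), PT (W j) (x j) (ζ j) ≠ PT (W j) (x j) (ζ' j) := by
    filter_upwards [hcr0, BLL_evne hζ hζ' hne] with j h1 h2 h
    unfold PT at h
    exact h2 (mul_left_cancel₀ h1.1 (add_left_cancel h))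
  have hneχ : χ u₀ ≠ ζ₀' := by rw [hu₀e]; exact hne
  -- the finite sets
  have hEx : ∀ᶠ j in (U : Filter ℕ), ∃ E : Finset ℂ, ∀ y, y ∈ E ↔ (y ∈ lf (W j) (PT (W j) (x j) (ζ j)) (PT (W j) (x j) (ζ' j)) ∧ ‖y‖ ≤ ρ) := by
    filter_upwards [hF.td, haW] with j ⟨hTj, hxj⟩ h1
    have h2 := (hACR s (W j) hTj _ h1).2.2.2.2.2.1 (PT (W j) (x j) (ζ' j)) ρ hρ
    exact ⟨h2.toFinset, fun y => by simp only [Set.Finite.mem_toFinset, mem_setOf_eq]⟩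
  obtain ⟨E, hE⟩ := hEx.choice
  -- lifts in the limit domain
  have hlift : ∀ w : ℂ, w ∈ UD → χ w = ζ₀' → v₀⁻¹ * w ∈ lf (χ '' UD) 0 ζ₀' := by
    intro w hw hwχ
    have h1 : v₀⁻¹ * w ∈ UD := BLL_mem' (by rw [norm_mul, hvi, one_mul]; exact BLL_mem hw)
    refine ⟨h1, ?_⟩
    rw [hrm _ h1, ← mul_assoc, mul_inv_cancel₀ hv0, one_mul]
    exact hwχ
  set ρ' : ℝ := Real.sqrt (1 - (1 - ρ ^ 2) * (1 - t) ^ 2) with hρ'def
  have hρ'1 : ρ' < 1 := BLU_one hρ0 hρ ht1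
  have hfin := (hACR s (χ '' UD) hTD 0 h0Ω).2.2.2.2.2.1 ζ₀' ρ' hρ'1
  have hbound : ∀ m : ℕ, (∀ᶠ j in (U : Filter ℕ), m ≤ (E j).card) → m ≤ hfin.toFinset.card := by
    intro m hm
    have h1 : ∀ᶠ j in (U : Filter ℕ), ∃ E' : Finset ℂ, E'.card = m ∧ ∀ y ∈ E', y ∈ lf (W j) (PT (W j) (x j) (ζ j)) (PT (W j) (x j) (ζ' j)) ∧ ‖y‖ ≤ ρ := by
      filter_upwards [hm, hE] with j hmj hEj
      obtain ⟨E', hsub, hcard⟩ := Finset.exists_subset_card_eq hmj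
      exact ⟨E', hcard, fun y hy => (hEj y).1 (hsub hy)⟩
    obtain ⟨E', hE'⟩ := h1.choice
    obtain ⟨v, hvinj, hvp, -⟩ := BLU_key hFRB hQNU hQLC hACR hMOB hTUL hF hζ' hu₀ hneχ hμ hμe hbW hρ0 hρ ht0 ht1 hμt E' m hE'
    have h2 : (Finset.univ.image (fun i : Fin m => v₀⁻¹ * v i)) ⊆ hfin.toFinset := by
      intro y hy
      obtain ⟨i, -, rfl⟩ := Finset.mem_image.1 hy
      rw [Set.Finite.mem_toFinset]
      refine ⟨hlift _ (hvp i).1 (hvp i).2.1, ?_⟩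
      rw [norm_mul, hvi, one_mul]
      exact (hvp i).2.2
    have h3 := Finset.card_le_card h2
    rw [Finset.card_image_of_injective _ (fun i k hik => hvinj (mul_left_cancel₀ (inv_ne_zero hv0) hik)), Finset.card_univ, Fintype.card_fin] at h3
    exact h3
  have hle : ∀ᶠ j in (U : Filter ℕ), (E j).card ≤ hfin.toFinset.card := by
    by_contra h
    rw [← Ultrafilter.eventually_not] at h
    have := hbound (hfin.toFinset.card + 1) (h.mono fun j hj => by omega)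
    omega
  obtain ⟨m, hm⟩ : ∃ m : ℕ, ∀ᶠ j in (U : Filter ℕ), (E j).card = m := by
    have h1 : ∀ᶠ j in (U : Filter ℕ), ∃ m ∈ Set.Iic hfin.toFinset.card, (E j).card = m := hle.mono fun j hj => ⟨_, hj, rfl⟩
    obtain ⟨m, -, hm⟩ := (Ultrafilter.eventually_exists_mem_iff (f := U) (P := fun m j => (E j).card = m) (Set.finite_Iic _)).1 h1
    exact ⟨m, hm⟩
  obtain ⟨v, hvinj, hvp, hvlim⟩ := BLU_key hFRB hQNU hQLC hACR hMOB hTUL hF hζ' hu₀ hneχ hμ hμe hbW hρ0 hρ ht0 ht1 hμt E m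
    (by filter_upwards [hm, hE] with j h1 h2; exact ⟨h1, fun y hy => (h2 y).1 hy⟩)
  -- the sum in the limit domain
  have hy : v₀⁻¹ * u₀ ∈ UD := BLL_mem' (by rw [norm_mul, hvi, one_mul]; exact BLL_mem hu₀)
  have hyv : rm (χ '' UD) 0 (v₀⁻¹ * u₀) = ζ₀ := by
    rw [hrm _ hy, ← mul_assoc, mul_inv_cancel₀ hv0, one_mul]
    exact hu₀e
  have hQ := hQLC s (χ '' UD) hTD 0 h0Ω ζ₀' hζ₀' (v₀⁻¹ * u₀) hy
  rw [hyv] at hQ
  obtain ⟨e, he⟩ := hQ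
  set g : Fin m → ℂ := fun i => ((e ⟨v₀⁻¹ * v i, hlift _ (hvp i).1 (hvp i).2.1⟩ : lf (χ '' UD) ζ₀ ζ₀') : ℂ) with hg
  have hginj : Function.Injective g := by
    intro i i' hii
    have h2 := e.injective (Subtype.ext hii)
    have h3 := congrArg Subtype.val h2
    exact hvinj (mul_left_cancel₀ (inv_ne_zero hv0) h3)
  have hgn : ∀ i, ‖g i‖ = ‖T (v i) u₀‖ := by
    intro i
    have h1 := he ⟨v₀⁻¹ * v i, hlift _ (hvp i).1 (hvp i).2.1⟩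
    have h2 : ‖T (v₀⁻¹ * v i) (v₀⁻¹ * u₀)‖ = ‖T (v i) u₀‖ := BLL_rot hvi _ _
    exact h1.trans h2
  have hsum := (((hQFN s (χ '' UD) hF.s0 hTD).1 _ hζ₀ _ hζ₀' hne).2.2.2.2.2.2.1 (Finset.univ.image g) (by
    intro y hy
    obtain ⟨i, _, rfl⟩ := Finset.mem_image.1 hy
    exact (e ⟨v₀⁻¹ * v i, hlift _ (hvp i).1 (hvp i).2.1⟩).2)).2
  rw [Finset.sum_image (fun i _ i' _ h => hginj h)] at hsum
  have hs2 : ∑ i : Fin m, Real.log (1 / ‖g i‖) = ∑ i : Fin m, Real.log (1 / ‖T (v i) u₀‖) :=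
    Finset.sum_congr rfl fun i _ => by rw [hgn i]
  rw [hs2] at hsum
  have hD : ∀ᶠ j in (U : Filter ℕ), ∑ y ∈ E j, Real.log (1 / ‖y‖) < gr (χ '' UD) ζ₀ ζ₀' + ε / 4 :=
    hvlim.eventually_lt_const (by linarith)
  filter_upwards [hF.td, haW, hbW, hab, hE, hD] with j ⟨hTj, hxj⟩ h1 h2 h3 hEj hDj
  have hQFj := ((hQFN s (W j) hF.s0 hTj).1 _ h1 _ h2 h3).2.2.2.2.2.2
  obtain ⟨F, hFl, -, hFs⟩ := hQFj.2 (ε / 4) (by linarith)
  have hsplit : ∑ y ∈ F, Real.log (1 / ‖y‖) = ∑ y ∈ F.filter (fun y => ‖y‖ ≤ ρ), Real.log (1 / ‖y‖) + ∑ y ∈ F.filter (fun y => ¬ ‖y‖ ≤ ρ), Real.log (1 / ‖y‖) :=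
    (Finset.sum_filter_add_sum_filter_not F _ _).symm
  have htail : ∑ y ∈ F.filter (fun y => ¬ ‖y‖ ≤ ρ), Real.log (1 / ‖y‖) ≤ C * (1 - η) ^ n := by
    refine hA n (W j) hTj _ h1 _ h2 _ fun y hy => ?_
    rw [Finset.mem_filter] at hy
    exact ⟨hFl y hy.1, not_le.1 hy.2⟩
  have hmain : ∑ y ∈ F.filter (fun y => ‖y‖ ≤ ρ), Real.log (1 / ‖y‖) ≤ ∑ y ∈ E j, Real.log (1 / ‖y‖) := by
    refine Finset.sum_le_sum_of_subset_of_nonneg ?_ ?_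
    · intro y hy
      rw [Finset.mem_filter] at hy
      exact (hEj y).2 ⟨hFl y hy.1, hy.2⟩
    · intro y hy _
      have h4 := ((hEj y).1 hy).1.1
      have h5 := BLL_mem h4
      rcases (norm_nonneg y).eq_or_lt with h6 | h6
      · rw [← h6]; simp
      · exact Real.log_nonneg (by rw [le_div_iff₀ h6]; linarith)
  linarith

end CVL
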